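import Pool.Agent.Lib.MP_b8d9b4_co.Top.Defs

/-!
# MP_b8d9b4_co: maximal independent sets of all sizes `>= (2 n + 8) / 3` (copy of the proof of MaxIndepRange)
-/

set_option autoImplicit false

namespace Pool.Agent.MP_b8d9b4_co.Top.Ind

/-- General criterion: `j` queens given by 1-based coordinates `(r i, c i)`, `i < j`. -/
lemma of_coords (n j : ℕ) (r c : ℕ → ℤ)
    (hr : ∀ i, i < j → 1 ≤ r i ∧ r i ≤ n) (hc : ∀ i, i < j → 1 ≤ c i ∧ c i ≤ n)
    (hind : ∀ i k, i < k → k < j →
      r i ≠ r k ∧ c i ≠ c k ∧ c i - r i ≠ c k - r k ∧ c i + r i ≠ c k + r k)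
    (hdom : ∀ x y : ℤ, 1 ≤ x → x ≤ n → 1 ≤ y → y ≤ n →
      ∃ i, i < j ∧ (r i = x ∨ c i = y ∨ c i - r i = y - x ∨ c i + r i = y + x)) :
    ∃ S : Finset (Fin n × Fin n), S.card = j ∧
      Maximal (fun T : Finset (Fin n × Fin n) => (queensGraph n).IsIndepSet (T : Set (Fin n × Fin n))) S := by
  classical
  -- the squares
  have hr' : ∀ i : Fin j, (r i - 1).toNat < n := fun i => by
    have := hr i i.2; omega
  have hc' : ∀ i : Fin j, (c i - 1).toNat < n := fun i => by
    have := hc i i.2; omega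
  let f : Fin j → Fin n × Fin n := fun i => (⟨(r i - 1).toNat, hr' i⟩, ⟨(c i - 1).toNat, hc' i⟩)
  have hf1 : ∀ i : Fin j, (((f i).1 : ℕ) : ℤ) = r i - 1 := fun i => by
    have := hr i i.2; simp only [f]; omega
  have hf2 : ∀ i : Fin j, (((f i).2 : ℕ) : ℤ) = c i - 1 := fun i => by
    have := hc i i.2; simp only [f]; omega
  have hne : ∀ i k : Fin j, i ≠ k →
      r i ≠ r k ∧ c i ≠ c k ∧ c i - r i ≠ c k - r k ∧ c i + r i ≠ c k + r k := by
    intro i k hik
    rcases lt_or_gt_of_ne hik with h | h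
    · exact hind i k h k.2
    · have := hind k i h i.2
      exact ⟨this.1.symm, this.2.1.symm, this.2.2.1.symm, this.2.2.2.symm⟩
  have hnadj : ∀ i k : Fin j, ¬ (queensGraph n).Adj (f i) (f k) := by
    intro i k hadj
    by_cases hik : i = k
    · exact hadj.1 (by rw [hik])
    obtain ⟨h1, h2, h3, h4⟩ := hne i k hik
    rcases hadj.2 with h | h | h
    · apply h1
      have := congrArg (fun z : Fin n => ((z : ℕ) : ℤ)) h
      simp only [hf1] at this; omega
    · apply h2
      have := congrArg (fun z : Fin n => ((z : ℕ) : ℤ)) h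
      simp only [hf2] at this; omega
    · rw [hf1, hf1, hf2, hf2] at h
      rcases abs_eq_abs.mp h with h | h
      · apply h3; omega
      · apply h4; omega
  have hinj : Function.Injective f := by
    intro i k h
    by_contra hik
    apply (hne i k hik).1
    have := congrArg (fun z : Fin n × Fin n => ((z.1 : ℕ) : ℤ)) h
    simp only [hf1] at this; omega
  refine ⟨Finset.univ.image f, ?_, ?_, ?_⟩
  · rw [Finset.card_image_of_injective _ hinj]; simp
  · intro p hp q hq _
    simp only [Finset.coe_image, Finset.coe_univ, Set.image_univ, Set.mem_range] at hp hq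
    obtain ⟨i, rfl⟩ := hp
    obtain ⟨k, rfl⟩ := hq
    exact hnadj i k
  · intro T hT hST p hp
    obtain ⟨i, hi, hcov⟩ := hdom ((p.1 : ℕ) + 1 : ℤ) ((p.2 : ℕ) + 1 : ℤ) (by omega)
      (by have := p.1.2; omega) (by omega) (by have := p.2.2; omega)
    have hmem : f ⟨i, hi⟩ ∈ T := hST (Finset.mem_image_of_mem f (Finset.mem_univ _))
    by_cases hpe : p = f ⟨i, hi⟩
    · rw [hpe]; exact Finset.mem_image_of_mem f (Finset.mem_univ _)
    exfalso
    refine hT hp hmem hpe ⟨hpe, ?_⟩
    have e1 := hf1 ⟨i, hi⟩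
    have e2 := hf2 ⟨i, hi⟩
    simp only at e1 e2
    rcases hcov with h | h | h | h
    · left; apply Fin.ext; omega
    · right; left; apply Fin.ext; omega
    · right; right; rw [e1, e2]
      rw [show ((p.1 : ℕ) : ℤ) - (r i - 1) = ((p.2 : ℕ) : ℤ) - (c i - 1) by omega]
    · right; right; rw [e1, e2]
      rw [show ((p.1 : ℕ) : ℤ) - (r i - 1) = -(((p.2 : ℕ) : ℤ) - (c i - 1)) by omega, abs_neg]

/-- The conclusion for a given pair `n`, `j`. -/
def Good (n j : ℕ) : Prop :=
  ∃ S : Finset (Fin n × Fin n), S.card = j ∧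
    Maximal (fun T : Finset (Fin n × Fin n) => (queensGraph n).IsIndepSet (T : Set (Fin n × Fin n))) S

lemma case0 (h w : ℕ) (hh : h % 3 ≠ 1) (hw : w ≤ h + 1) : Good (2 * h + 1 + w) (2 * h + 1) := by
  refine of_coords _ _ (fun i => i + 1)
    (fun i => if i < h then 2 * i + 2 else if i < 2 * h then 2 * ((i : ℤ) - h) + 1 else 2 * h + 1)
    ?_ ?_ ?_ ?_
  · intro i hi; omega
  · intro i hi; split_ifs <;> omega
  · intro i k hik hk; split_ifs <;> omega
  · intro x y hx hx' hy hy'
    by_cases h1 : x ≤ 2 * h + 1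
    · exact ⟨(x - 1).toNat, by omega, Or.inl (by omega)⟩
    by_cases h2 : y ≤ 2 * h + 1
    · rcases Int.emod_two_eq_zero_or_one y with h3 | h3
      · refine ⟨(y / 2 - 1).toNat, by omega, Or.inr (Or.inl ?_)⟩
        split_ifs <;> omega
      · by_cases h4 : y = 2 * h + 1
        · refine ⟨2 * h, by omega, Or.inr (Or.inl ?_)⟩
          split_ifs <;> omega
        · refine ⟨((y - 1) / 2 + h).toNat, by omega, Or.inr (Or.inl ?_)⟩
          split_ifs <;> omega
    by_cases h3 : 1 ≤ y - x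
    · refine ⟨(y - x - 1).toNat, by omega, Or.inr (Or.inr (Or.inl ?_))⟩
      split_ifs <;> omega
    · refine ⟨(y - x + 2 * h).toNat, by omega, Or.inr (Or.inr (Or.inl ?_))⟩
      split_ifs <;> omega

lemma case1 (h w : ℕ) (hh : h % 3 ≠ 1) (hw : w ≤ h + 1) (hw2 : 2 ≤ w) :
    Good (2 * h + 1 + w) (2 * h + 2) := by
  refine of_coords _ _ (fun i => if i ≤ 2 * h then i + 1 else 2 * h + 3)
    (fun i => if i ≤ h then 2 * i + 2 else if i ≤ 2 * h then 2 * (i : ℤ) - 2 * h + 1 else 1)
    ?_ ?_ ?_ ?_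
  · intro i hi; split_ifs <;> omega
  · intro i hi; split_ifs <;> omega
  · intro i k hik hk; split_ifs <;> omega
  · intro x y hx hx' hy hy'
    by_cases h1 : x ≤ 2 * h + 1
    · refine ⟨(x - 1).toNat, by omega, Or.inl ?_⟩
      split_ifs <;> omega
    by_cases h0 : y = 1
    · refine ⟨2 * h + 1, by omega, Or.inr (Or.inl ?_)⟩
      split_ifs <;> omega
    by_cases h2 : y ≤ 2 * h + 2
    · rcases Int.emod_two_eq_zero_or_one y with h3 | h3
      · refine ⟨(y / 2 - 1).toNat, by omega, Or.inr (Or.inl ?_)⟩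
        split_ifs <;> omega
      · refine ⟨((y - 1) / 2 + h).toNat, by omega, Or.inr (Or.inl ?_)⟩
        split_ifs <;> omega
    by_cases h3 : 1 ≤ y - x
    · refine ⟨(y - x - 1).toNat, by omega, Or.inr (Or.inr (Or.inl ?_))⟩
      split_ifs <;> omega
    · refine ⟨(y - x + 2 * h).toNat, by omega, Or.inr (Or.inr (Or.inl ?_))⟩
      split_ifs <;> omega

lemma case2 (h w : ℕ) (hh : h % 3 ≠ 1) (hw : w ≤ h + 1) (hw2 : 3 ≤ w) :
    Good (2 * h + 1 + w) (2 * h + 3) := by
  refine of_coords _ _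
    (fun i => if i ≤ 2 * h then i + 1 else if i = 2 * h + 1 then 2 * h + 2 else 2 * h + 4)
    (fun i => if i < h then 2 * i + 4 else if i < 2 * h then 2 * (i : ℤ) - 2 * h + 3 else
      if i = 2 * h then 2 * h + 3 else if i = 2 * h + 1 then 1 else 2)
    ?_ ?_ ?_ ?_
  · intro i hi; split_ifs <;> omega
  · intro i hi; split_ifs <;> omega
  · intro i k hik hk; split_ifs <;> omega
  · intro x y hx hx' hy hy'
    by_cases h1 : x ≤ 2 * h + 1
    · refine ⟨(x - 1).toNat, by omega, Or.inl ?_⟩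
      split_ifs <;> omega
    by_cases h0 : y ≤ 2
    · refine ⟨(2 * h + y).toNat, by omega, Or.inr (Or.inl ?_)⟩
      split_ifs <;> omega
    by_cases h2 : y ≤ 2 * h + 3
    · rcases Int.emod_two_eq_zero_or_one y with h3 | h3
      · refine ⟨(y / 2 - 2).toNat, by omega, Or.inr (Or.inl ?_)⟩
        split_ifs <;> omega
      · refine ⟨if y = 2 * h + 3 then 2 * h else ((y - 1) / 2 + h - 1).toNat,
          by split_ifs <;> omega, Or.inr (Or.inl ?_)⟩
        split_ifs <;> omega
    by_cases h3 : 3 ≤ y - x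
    · refine ⟨(y - x - 3).toNat, by omega, Or.inr (Or.inr (Or.inl ?_))⟩
      split_ifs <;> omega
    · refine ⟨(y - x + 2 * h - 2).toNat, by omega, Or.inr (Or.inr (Or.inl ?_))⟩
      split_ifs <;> omega

lemma case3 (h w : ℕ) (hh : h % 3 ≠ 1) (hw : w ≤ h + 1) (hw2 : 5 ≤ w) :
    Good (2 * h + 1 + w) (2 * h + 4) := by
  refine of_coords _ _
    (fun i => if i ≤ 2 * h then i + 1 else if i = 2 * h + 1 then 2 * h + 2 else
      if i = 2 * h + 2 then 2 * h + 4 else 2 * h + 6)
    (fun i => if i ≤ h then 2 * i + 4 else if i ≤ 2 * h then 2 * (i : ℤ) - 2 * h + 3 else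
      if i = 2 * h + 1 then 1 else if i = 2 * h + 2 then 2 else 3)
    ?_ ?_ ?_ ?_
  · intro i hi; split_ifs <;> omega
  · intro i hi; split_ifs <;> omega
  · intro i k hik hk; split_ifs <;> omega
  · intro x y hx hx' hy hy'
    by_cases h1 : x ≤ 2 * h + 1
    · refine ⟨(x - 1).toNat, by omega, Or.inl ?_⟩
      split_ifs <;> omega
    by_cases h0 : y ≤ 3
    · refine ⟨(2 * h + y).toNat, by omega, Or.inr (Or.inl ?_)⟩
      split_ifs <;> omega
    by_cases h2 : y ≤ 2 * h + 4
    · rcases Int.emod_two_eq_zero_or_one y with h3 | h3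
      · refine ⟨(y / 2 - 2).toNat, by omega, Or.inr (Or.inl ?_)⟩
        split_ifs <;> omega
      · refine ⟨((y - 1) / 2 + h - 1).toNat, by omega, Or.inr (Or.inl ?_)⟩
        split_ifs <;> omega
    by_cases h3 : 3 ≤ y - x
    · refine ⟨(y - x - 3).toNat, by omega, Or.inr (Or.inr (Or.inl ?_))⟩
      split_ifs <;> omega
    · refine ⟨(y - x + 2 * h - 2).toNat, by omega, Or.inr (Or.inr (Or.inl ?_))⟩
      split_ifs <;> omega

/-- full solution on an even board of side `2 h` with `h % 3 ≠ 1` -/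
lemma caseEven (h : ℕ) (hh : h % 3 ≠ 1) : Good (2 * h) (2 * h) := by
  refine of_coords _ _ (fun i => i + 1)
    (fun i => if i < h then 2 * i + 2 else 2 * (i : ℤ) - 2 * h + 1) ?_ ?_ ?_ ?_
  · intro i hi; omega
  · intro i hi; split_ifs <;> omega
  · intro i k hik hk; split_ifs <;> omega
  · intro x y hx hx' hy hy'
    exact ⟨(x - 1).toNat, by omega, Or.inl (by omega)⟩

/-- `n - 1` queens on a board of side `n = 2 h + 1`, `h % 3 = 2` -/
lemma caseFive (h : ℕ) (hh : h % 3 = 2) : Good (2 * h + 1) (2 * h) := by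
  refine of_coords _ _ (fun i => if i < h then i + 1 else i + 2)
    (fun i => if i < h then 2 * i + 2 else 2 * (i : ℤ) - 2 * h + 1) ?_ ?_ ?_ ?_
  · intro i hi; split_ifs <;> omega
  · intro i hi; split_ifs <;> omega
  · intro i k hik hk; split_ifs <;> omega
  · intro x y hx hx' hy hy'
    by_cases h1 : x ≤ h
    · refine ⟨(x - 1).toNat, by omega, Or.inl ?_⟩
      split_ifs <;> omega
    by_cases h2 : h + 2 ≤ x
    · refine ⟨(x - 2).toNat, by omega, Or.inl ?_⟩
      split_ifs <;> omega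
    by_cases h3 : y = 2 * h + 1
    · refine ⟨h - 1, by omega, Or.inr (Or.inr (Or.inl ?_))⟩
      split_ifs <;> omega
    rcases Int.emod_two_eq_zero_or_one y with h4 | h4
    · refine ⟨(y / 2 - 1).toNat, by omega, Or.inr (Or.inl ?_)⟩
      split_ifs <;> omega
    · refine ⟨((y - 1) / 2 + h).toNat, by omega, Or.inr (Or.inl ?_)⟩
      split_ifs <;> omega

/-- full solution on a board of side `2 h`, `h % 3 = 1`, `4 ≤ h` -/
lemma caseTwo (h : ℕ) (hh : h % 3 = 1) (h4 : 4 ≤ h) : Good (2 * h) (2 * h) := by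
  refine of_coords _ _ (fun i => i + 1)
    (fun i => if i < h then 2 * i + 2 else if i = h then 3 else if i = h + 1 then 1 else
      if i < 2 * h - 1 then 2 * (i : ℤ) - 2 * h + 3 else 5) ?_ ?_ ?_ ?_
  · intro i hi; omega
  · intro i hi; split_ifs <;> omega
  · intro i k hik hk; split_ifs <;> omega
  · intro x y hx hx' hy hy'
    exact ⟨(x - 1).toNat, by omega, Or.inl (by omega)⟩

/-- full solution on a board of side `2 h + 1`, `h % 3 = 1`, `4 ≤ h` -/
lemma caseThree (h : ℕ) (hh : h % 3 = 1) (h4 : 4 ≤ h) : Good (2 * h + 1) (2 * h + 1) := by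
  refine of_coords _ _ (fun i => i + 1)
    (fun i => if i < h - 1 then 2 * i + 4 else if i = h - 1 then 2 else
      if i < 2 * h - 1 then 2 * (i : ℤ) - 2 * h + 5 else if i = 2 * h - 1 then 1 else 3) ?_ ?_ ?_ ?_
  · intro i hi; omega
  · intro i hi; split_ifs <;> omega
  · intro i k hik hk; split_ifs <;> omega
  · intro x y hx hx' hy hy'
    exact ⟨(x - 1).toNat, by omega, Or.inl (by omega)⟩

lemma good_of_le (n j : ℕ) (h1 : 2 * n + 8 ≤ 3 * j) (h2 : j ≤ n) : Good n j := by
  have e0 : ∀ h w, n = 2 * h + 1 + w → j = 2 * h + 1 → h % 3 ≠ 1 → Good n j := by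
    intro h w hn hj hh; subst hn hj; exact case0 h w hh (by omega)
  have e1 : ∀ h w, n = 2 * h + 1 + w → j = 2 * h + 2 → h % 3 ≠ 1 → 2 ≤ w → Good n j := by
    intro h w hn hj hh hw; subst hn hj; exact case1 h w hh (by omega) hw
  have e2 : ∀ h w, n = 2 * h + 1 + w → j = 2 * h + 3 → h % 3 ≠ 1 → 3 ≤ w → Good n j := by
    intro h w hn hj hh hw; subst hn hj; exact case2 h w hh (by omega) hw
  have e3 : ∀ h w, n = 2 * h + 1 + w → j = 2 * h + 4 → h % 3 ≠ 1 → 5 ≤ w → Good n j := by
    intro h w hn hj hh hw; subst hn hj; exact case3 h w hh (by omega) hw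
  have hj : j % 6 = 0 ∨ j % 6 = 1 ∨ j % 6 = 2 ∨ j % 6 = 3 ∨ j % 6 = 4 ∨ j % 6 = 5 := by omega
  rcases hj with hj | hj | hj | hj | hj | hj
  · -- j ≡ 0
    by_cases hn : n = j
    · have : Good (2 * (j / 2)) (2 * (j / 2)) := caseEven (j / 2) (by omega)
      rw [show 2 * (j / 2) = j by omega] at this; rw [hn]; exact this
    · exact e1 (j / 2 - 1) (n + 1 - j) (by omega) (by omega) (by omega) (by omega)
  · exact e0 (j / 2) (n - j) (by omega) (by omega) (by omega)
  · by_cases hn : n = j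
    · have : Good (2 * (j / 2)) (2 * (j / 2)) := caseTwo (j / 2) (by omega) (by omega)
      rw [show 2 * (j / 2) = j by omega] at this; rw [hn]; exact this
    · exact e1 (j / 2 - 1) (n + 1 - j) (by omega) (by omega) (by omega) (by omega)
  · by_cases hn : n = j
    · have : Good (2 * (j / 2) + 1) (2 * (j / 2) + 1) := caseThree (j / 2) (by omega) (by omega)
      rw [show 2 * (j / 2) + 1 = j by omega] at this; rw [hn]; exact this
    · exact e2 (j / 2 - 1) (n + 2 - j) (by omega) (by omega) (by omega) (by omega)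
  · by_cases hn : n = j
    · have : Good (2 * (j / 2)) (2 * (j / 2)) := caseEven (j / 2) (by omega)
      rw [show 2 * (j / 2) = j by omega] at this; rw [hn]; exact this
    by_cases hn : n = j + 1
    · have : Good (2 * (j / 2) + 1) (2 * (j / 2)) := caseFive (j / 2) (by omega)
      rw [show 2 * (j / 2) = j by omega] at this; rw [hn]; exact this
    · exact e3 (j / 2 - 2) (n + 3 - j) (by omega) (by omega) (by omega) (by omega)
  · exact e0 (j / 2) (n - j) (by omega) (by omega) (by omega)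

/-- Above size `(2 n + 8) / 3` the sizes of the maximal independent sets of the queens graph are
exactly the integers up to `n`. -/
theorem range (n j : ℕ) (h : 2 * n + 8 ≤ 3 * j) :
    (∃ S : Finset (Fin n × Fin n), S.card = j ∧
      Maximal (fun T : Finset (Fin n × Fin n) =>
        (queensGraph n).IsIndepSet (T : Set (Fin n × Fin n))) S) ↔ j ≤ n := by
  constructor
  · rintro ⟨S, rfl, hS⟩
    have hinj : Set.InjOn (fun p : Fin n × Fin n => p.1) (S : Set (Fin n × Fin n)) := by
      intro p hp q hq hpq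
      by_contra hne
      exact hS.prop hp hq hne ⟨hne, Or.inl hpq⟩
    have := Finset.card_le_card_of_injOn (s := S) (t := Finset.univ) (fun p => p.1)
      (fun _ _ => by simp) hinj
    simpa using this
  · intro hj
    exact good_of_le n j h hj

end Pool.Agent.MP_b8d9b4_co.Top.Ind
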