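import Pool.Agent.Lib.MP_b8d9b4_co.Top.Stm
import Pool.Agent.Lib.MP_b8d9b4_co.Top.Ind

/-!
# MP_b8d9b4_co: the final theorem from the pieces
-/

set_option autoImplicit false

namespace Pool.Agent.MP_b8d9b4_co.Top

/-- `Q_n` has a set of size `j` which is both a minimal dominating set and a maximal irredundant set -/
def Both (n j : ℕ) : Prop := ∃ S : Finset (Fin n × Fin n), IsMinDominating (queensGraph n) S ∧
  IsMaxIrredundant (queensGraph n) S ∧ S.card = j

theorem both_of_minDom (htr : S_tr) (hgr : S_gr) {n k : ℕ}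
    (h : ∃ S : Finset Sq, MinDom n S ∧ S.card = k) : Both n k := by
  obtain ⟨S, hS, hk⟩ := h
  obtain ⟨S', h1, h2⟩ := htr n S hS
  exact ⟨S', h1, (hgr _ inferInstance inferInstance _ _).1 h1, by rw [h2, hk]⟩

theorem both_of_le (hgr : S_gr) {n j : ℕ} (h : 2 * n + 8 ≤ 3 * j) (hj : j ≤ n) : Both n j := by
  obtain ⟨S, hS, h1⟩ := (Ind.range n j h).2 hj
  have h2 := (hgr _ inferInstance inferInstance (queensGraph n) S).2 h1
  exact ⟨S, h2, (hgr _ inferInstance inferInstance _ _).1 h2, hS⟩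

theorem both_stA (htr : S_tr) (hgr : S_gr) (hA : S_stA) {n j : ℕ} (h : 2 * n + 8 ≤ 3 * j)
    (hj : j + 11 ≤ 2 * n) : Both n j := by
  rcases le_or_gt j n with h1 | h1
  · exact both_of_le hgr h h1
  · exact both_of_minDom htr hgr (hA n j (by omega) (by omega) hj)

theorem both_fin (htr : S_tr) (hgr : S_gr) (hA : S_stA) (hf : S_fin) : ∃ C : ℝ, ∀ n j : ℕ,
    2 * n + 8 ≤ 3 * j → (j : ℝ) + C * (n : ℝ) ^ (3 / 4 : ℝ) ≤ 6 * n → Both n j := by
  obtain ⟨C, hC, hf⟩ := hf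
  refine ⟨C + 12, fun n j h h2 => ?_⟩
  rcases le_or_gt j n with h1 | h1
  · exact both_of_le hgr h h1
  rcases le_or_gt (j + 11) (2 * n) with h3 | h3
  · exact both_stA htr hgr hA h h3
  have hn0 : (0 : ℝ) ≤ (n : ℝ) ^ (3 / 4 : ℝ) := Real.rpow_nonneg (Nat.cast_nonneg n) _
  rcases le_or_gt 10 n with h4 | h4
  · refine both_of_minDom htr hgr (hf n j h4 (by omega) ?_)
    nlinarith
  · exfalso
    rcases Nat.eq_zero_or_pos n with h5 | h5
    · subst h5
      have h6 : (j : ℝ) ≤ 0 := by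
        have : (0 : ℝ) ^ (3 / 4 : ℝ) = 0 := Real.zero_rpow (by norm_num)
        simp only [Nat.cast_zero, this, mul_zero, add_zero] at h2
        exact h2
      have h7 : j ≤ 0 := by exact_mod_cast h6
      omega
    · -- `n ^ (3 / 4) ≥ n / 2` for `1 ≤ n ≤ 9`
      have hn1 : (1 : ℝ) ≤ n := by exact_mod_cast h5
      have hn9 : (n : ℝ) ≤ 16 := by
        have : n ≤ 16 := by omega
        exact_mod_cast this
      have h8 : (n : ℝ) ≤ 2 * (n : ℝ) ^ (3 / 4 : ℝ) := by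
        have h9 : (n : ℝ) ^ (1 / 4 : ℝ) ≤ 2 := by
          have h10 : (n : ℝ) ^ (1 / 4 : ℝ) ≤ (16 : ℝ) ^ (1 / 4 : ℝ) :=
            Real.rpow_le_rpow (by linarith) hn9 (by norm_num)
          have h11 : (16 : ℝ) ^ (1 / 4 : ℝ) = 2 := by
            have : (16 : ℝ) = (2 : ℝ) ^ (4 : ℝ) := by
              rw [show (4 : ℝ) = ((4 : ℕ) : ℝ) by norm_num, Real.rpow_natCast]
              norm_num
            rw [this, ← Real.rpow_mul (by norm_num)]
            norm_num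
          linarith
        have h12 : (n : ℝ) = (n : ℝ) ^ (1 / 4 : ℝ) * (n : ℝ) ^ (3 / 4 : ℝ) := by
          rw [← Real.rpow_add (by linarith)]
          norm_num
        calc (n : ℝ) = (n : ℝ) ^ (1 / 4 : ℝ) * (n : ℝ) ^ (3 / 4 : ℝ) := h12
          _ ≤ 2 * (n : ℝ) ^ (3 / 4 : ℝ) := mul_le_mul_of_nonneg_right h9 hn0
      have h13 : 0 < (j : ℝ) := by
        have : 0 < j := by omega
        exact_mod_cast this
      nlinarith

theorem main_of (htr : S_tr) (hgr : S_gr) (hA : S_stA) (hf : S_fin) (hup : S_up) :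
    (∀ (n : ℕ) (S : Finset (Fin n × Fin n)), IsIrredundant (queensGraph n) S →
      S.card ≤ 6 * n - 2) ∧
    ∃ C : ℝ, ∀ n j : ℕ, 2 * n + 8 ≤ 3 * j →
      (j + 11 ≤ 2 * n ∨ (j : ℝ) + C * (n : ℝ) ^ (3 / 4 : ℝ) ≤ 6 * n) →
      ∃ S : Finset (Fin n × Fin n), IsMinDominating (queensGraph n) S ∧
        IsMaxIrredundant (queensGraph n) S ∧ S.card = j := by
  obtain ⟨C, hC⟩ := both_fin htr hgr hA hf
  refine ⟨hup, C, fun n j h hj => ?_⟩
  rcases hj with hj | hj
  · exact both_stA htr hgr hA h hj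
  · exact hC n j h hj

end Pool.Agent.MP_b8d9b4_co.Top
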