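import Mathlib

/-!
# MP_b8d9b4_co, sizes of minimal dominating sets of the queens graph: definitions

Squares are pairs `(x, y)` of integers, `x` the column, `y` the row. The four lines through a square are numbered by `Fin 4`:
`0` the column, `1` the row, `2` the diagonal `x - y`, `3` the antidiagonal `x + y`.
-/

set_option autoImplicit false

namespace Pool.Agent.MP_b8d9b4_co.Top

/-! ### Graph notions (for the final statement) -/

/-- The queens graph `Q_n`: the vertices are the squares of the `n × n` board, two distinct squares are adjacent iff they share a row,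
a column or a diagonal. -/
def queensGraph (n : ℕ) : SimpleGraph (Fin n × Fin n) where
  Adj p q := p ≠ q ∧ (p.1 = q.1 ∨ p.2 = q.2 ∨
    |((p.1 : ℕ) : ℤ) - ((q.1 : ℕ) : ℤ)| = |((p.2 : ℕ) : ℤ) - ((q.2 : ℕ) : ℤ)|)
  symm := ⟨by
    intro p q h
    refine ⟨fun e => h.1 e.symm, ?_⟩
    rcases h.2 with h | h | h
    · exact Or.inl h.symm
    · exact Or.inr (Or.inl h.symm)
    · refine Or.inr (Or.inr ?_)
      rw [abs_sub_comm, h, abs_sub_comm]⟩
  loopless := ⟨fun p h => h.1 rfl⟩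

section Graph

variable {V : Type} (G : SimpleGraph V)

/-- `w` lies in the closed neighbourhood of `v` -/
def InNbhd (v w : V) : Prop := w = v ∨ G.Adj v w

/-- `S` is a dominating set -/
def IsDominating (S : Finset V) : Prop := ∀ w, ∃ v ∈ S, InNbhd G v w

/-- `S` is a minimal dominating set: no proper subset of it is dominating -/
def IsMinDominating (S : Finset V) : Prop := Minimal (IsDominating G) S

/-- `S` is irredundant: every `v ∈ S` has a private neighbour -/
def IsIrredundant (S : Finset V) : Prop :=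
  ∀ v ∈ S, ∃ w, InNbhd G v w ∧ ∀ u ∈ S, u ≠ v → ¬ InNbhd G u w

/-- `S` is a maximal irredundant set: no proper superset of it is irredundant -/
def IsMaxIrredundant (S : Finset V) : Prop := Maximal (IsIrredundant G) S

end Graph

/-! ### Squares and lines with integer coordinates -/

/-- squares -/
abbrev Sq : Type := ℤ × ℤ

/-- lines: the type and the value -/
abbrev Line : Type := Fin 4 × ℤ

/-- the value of the line of type `X` through `p`: column, row, diagonal, antidiagonal -/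
def lv (X : Fin 4) (p : Sq) : ℤ :=
  match X with
  | 0 => p.1
  | 1 => p.2
  | 2 => p.1 - p.2
  | 3 => p.1 + p.2

/-- a queen on `q` attacks (or occupies) `v` -/
def att (q v : Sq) : Prop := ∃ X, lv X q = lv X v

/-- the board -/
noncomputable def board (n : ℤ) : Finset Sq := Finset.Icc 1 n ×ˢ Finset.Icc 1 n

/-- dominating sets -/
def Dom (n : ℤ) (S : Finset Sq) : Prop := S ⊆ board n ∧ ∀ v ∈ board n, ∃ q ∈ S, att q v

/-- minimal dominating sets -/
def MinDom (n : ℤ) (S : Finset Sq) : Prop :=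
  Dom n S ∧ ∀ q ∈ S, ∃ v ∈ board n, att q v ∧ ∀ q' ∈ S, q' ≠ q → ¬ att q' v

theorem mem_board {n : ℤ} {p : Sq} : p ∈ board n ↔ 1 ≤ p.1 ∧ p.1 ≤ n ∧ 1 ≤ p.2 ∧ p.2 ≤ n := by
  unfold board
  rw [Finset.mem_product, Finset.mem_Icc, Finset.mem_Icc]
  tauto

/-- The data of the core lemma. `own` are the own lines, `E X v` says that the line `(X, v)` is an empty line, `b l` is the queen of the own
line `l`, `Z` are additional queens, `Phi` the squares where an own column and an own row can be merged, `Phi0` those which stay merged. -/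
structure Cfg (n : ℤ) (own : Finset Line) (E : Fin 4 → ℤ → Prop) (b : Line → Sq)
    (Z Phi Phi0 : Finset Sq) : Prop where
  /-- own lines are not empty -/
  ownE : ∀ l ∈ own, ¬ E l.1 l.2
  /-- the queens are on the board -/
  b_mem : ∀ l ∈ own, b l ∈ board n
  /-- the queen of `l` is on `l` -/
  b_on : ∀ l ∈ own, lv l.1 (b l) = l.2
  /-- its other lines are neither own nor empty -/
  b_oth : ∀ l ∈ own, ∀ X, X ≠ l.1 → (X, lv X (b l)) ∉ own ∧ ¬ E X (lv X (b l))
  /-- the private squares -/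
  priv : ∀ l ∈ own, ∃ p ∈ board n, lv l.1 p = l.2 ∧ ∀ X, X ≠ l.1 → E X (lv X p)
  /-- the additional queens are on the board -/
  z_mem : ∀ z ∈ Z, z ∈ board n
  /-- the lines of the additional queens are neither own nor empty -/
  z_oth : ∀ z ∈ Z, ∀ X, (X, lv X z) ∉ own ∧ ¬ E X (lv X z)
  /-- domination -/
  cover : ∀ v ∈ board n, (∃ X, (X, lv X v) ∈ own) ∨ ∃ z ∈ Z, att z v
  /-- the merged queens are on the board -/
  u_mem : ∀ u ∈ Phi, u ∈ board n
  /-- their column and their row are own -/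
  u_own : ∀ u ∈ Phi, ((0, u.1) : Line) ∈ own ∧ ((1, u.2) : Line) ∈ own
  /-- their diagonals are neither own nor empty -/
  u_oth : ∀ u ∈ Phi, ∀ X, X ≠ 0 → X ≠ 1 → (X, lv X u) ∉ own ∧ ¬ E X (lv X u)
  /-- different columns and rows -/
  u_inj : ∀ u ∈ Phi, ∀ u' ∈ Phi, u ≠ u' → u.1 ≠ u'.1 ∧ u.2 ≠ u'.2
  /-- the queens which stay merged -/
  sub : Phi0 ⊆ Phi
  /-- the diagonals of the other merged queens are not needed -/
  H : ∀ u ∈ Phi, u ∉ Phi0 → ∀ v ∈ board n, (lv 2 v = lv 2 u ∨ lv 3 v = lv 3 u) →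
    (∃ X, (X, lv X v) ∈ own) ∨
    (∃ l ∈ own, (∀ u' ∈ Phi, l ≠ (0, u'.1) ∧ l ≠ (1, u'.2)) ∧ att (b l) v) ∨
    ∃ u0 ∈ Phi0, att u0 v

/-! ### The moduli `p2 = 2 e + 1`, `p1 = 2 e + 3`, `p3 = 2 e + 5` -/

/-- the first modulus -/
def p1 (e : ℤ) : ℤ := 2 * e + 3

/-- the second modulus -/
def p2 (e : ℤ) : ℤ := 2 * e + 1

/-- the third modulus -/
def p3 (e : ℤ) : ℤ := 2 * e + 5

/-- the product -/
def KK (e : ℤ) : ℤ := p1 e * p2 e * p3 e

/-- no modulus divides `v` -/
def OO (e v : ℤ) : Prop := ¬ p1 e ∣ v ∧ ¬ p2 e ∣ v ∧ ¬ p3 e ∣ v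

/-- the residue conditions of the empty lines -/
def FF (e : ℤ) (X : Fin 4) (v : ℤ) : Prop :=
  match X with
  | 0 => p1 e ∣ v ∧ ¬ p2 e ∣ v ∧ ¬ p3 e ∣ v
  | 1 => ¬ p3 e ∣ v ∧ ((p1 e ∣ v ∧ ¬ p2 e ∣ v) ∨ (¬ p1 e ∣ v ∧ p2 e ∣ v))
  | 2 => ¬ p1 e ∣ v ∧ ((p2 e ∣ v ∧ ¬ p3 e ∣ v) ∨ (¬ p2 e ∣ v ∧ p3 e ∣ v))
  | 3 => p3 e ∣ v ∧ ¬ p1 e ∣ v ∧ ¬ p2 e ∣ v

/-- the empty lines: columns and rows only in the window `[K, K + t - 1]` -/
def EE (e t : ℤ) (X : Fin 4) (v : ℤ) : Prop :=
  FF e X v ∧ (X = 0 ∨ X = 1 → KK e ≤ v ∧ v ≤ KK e + t - 1)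

/-- the position of the queen of a line -/
def Pos (e n : ℤ) (l : Line) (q : Sq) : Prop :=
  q ∈ board n ∧ lv l.1 q = l.2 ∧
  match l.1 with
  | 0 => n - KK e < q.2 ∧ p3 e ∣ q.2 ∧ p1 e ∣ q.1 - q.2 ∧ p2 e ∣ q.1 + q.2
  | 1 => q.1 ≤ KK e ∧ p3 e ∣ q.1 ∧ p1 e ∣ q.1 - q.2 ∧ p2 e ∣ q.1 + q.2
  | 2 => p3 e ∣ q.2 ∧ p2 e ∣ q.1 ∧ p1 e ∣ q.1 + q.2
  | 3 => p3 e ∣ q.2 ∧ p2 e ∣ q.1 ∧ p1 e ∣ q.1 - q.2

open Classical in
/-- the queen of a line -/
noncomputable def bb (e n : ℤ) (l : Line) : Sq :=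
  if h : ∃ q, Pos e n l q then h.choose else (0, 0)

open Classical in
/-- the own lines -/
noncomputable def ownB (e n t : ℤ) : Finset Line :=
  ((Finset.Icc 1 n).filter (fun v => OO e v)).image (fun v => ((0, v) : Line)) ∪
  ((Finset.Icc 1 n).filter (fun v => OO e v)).image (fun v => ((1, v) : Line)) ∪
  ((Finset.Icc (-(t - KK e)) (t - KK e)).filter (fun v => OO e v)).image
    (fun v => ((2, v) : Line)) ∪
  ((Finset.Icc (2 * KK e + t - 1 - (t - KK e)) (2 * KK e + t - 1 + (t - KK e))).filter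
    (fun v => OO e v)).image (fun v => ((3, v) : Line))

open Classical in
/-- the needed lines which are neither own nor empty -/
noncomputable def needB (e n t : ℤ) : Finset Line :=
  (((Finset.Icc 1 n).image (fun v => ((0, v) : Line)) ∪
    (Finset.Icc 1 n).image (fun v => ((1, v) : Line)) ∪
    (Finset.Icc (-(t - 1)) (t - 1)).image (fun v => ((2, v) : Line)) ∪
    (Finset.Icc (2 * KK e) (2 * KK e + 2 * (t - 1))).image (fun v => ((3, v) : Line))).filter
      (fun l => l ∉ ownB e n t ∧ ¬ EE e t l.1 l.2))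

open Classical in
/-- the additional queens -/
noncomputable def ZB (e n t : ℤ) : Finset Sq := (needB e n t).image (bb e n)

open Classical in
/-- the rows of the merged queens of class `j` -/
noncomputable def rowsB (e n j : ℤ) : Finset ℤ :=
  (Finset.Icc (KK e) (n - 2 * KK e)).filter
    (fun r => p2 e ∣ r + 8 * j ∧ ¬ p1 e ∣ r ∧ ¬ p3 e ∣ r)

open Classical in
/-- the merged queens -/
noncomputable def PhiB (e n : ℤ) : Finset Sq :=
  (Finset.Icc (1 : ℤ) 60).biUnion (fun j =>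
    (rowsB e n j).image (fun r => ((r + 2 * (p1 e * p3 e) * j, r) : Sq)))

open Classical in
/-- the queens which stay merged -/
noncomputable def Phi0B (e n : ℤ) : Finset Sq := (PhiB e n).filter (fun u => u.2 < 2 * KK e)

end Pool.Agent.MP_b8d9b4_co.Top
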