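import Pool.Agent.Lib.MP_b8d9b4_co.Top.Defs

/-!
# MP_b8d9b4_co, sizes of minimal dominating sets of the queens graph: the pieces

Theorem: for families 1 and 2 (maximal irredundant sets, minimal dominating sets) every size between `(2 n + 8) / 3` and `6 n - C n ^ (3/4)`
occurs. Every piece `S_x` is to be proved as `theorem p_x : S_x` in `Top/P/x.lean` (imports `Top/Stm`), with the pieces named (Uses ..) as
hypotheses `(h1 : S_y)`, in this order. Definitions: `Top/Defs.lean`. Short names below: `P1 = p1 e = 2e+3`, `P2 = p2 e = 2e+1`, `P3 = p3 e = 2e+5`,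
`K = KK e = P1 P2 P3`.
-/

set_option autoImplicit false

namespace Pool.Agent.MP_b8d9b4_co.Top

/-- [TOP core] the core lemma.

Proof. For `M` with `Phi0 ⊆ M ⊆ Phi` let `X M = M ∪ Z ∪ (own.filter (fun l => l is not (0, u.1) or (1, u.2) for any u ∈ M)).image b`.
(1) Every own line contains exactly one element of `X M`: `u` if the line is the column or the row of `u ∈ M` (unique by `u_inj`), and `b l` otherwise; the
elements of `Z` have no own line, `b l` has only the own line `l` (`b_oth`), `u ∈ M` has only its column and its row (`u_oth`). So `b` is injective on `own`, and `M`, `Z`, the image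
are disjoint, `(X M).card = own.card - M.card + Z.card` (the lines `(0, u.1)`, `(1, u.2)`, `u ∈ M`, are `2 M.card` different own lines).
(2) No element of `X M` is on an `E` line (`ownE`, `b_oth`, `z_oth`, `u_own` with `ownE`, `u_oth`). So every `q ∈ X M` outside `Z` has a private square with respect to `X M`: take
`l` = its own line (for `q = u` its row) and the square of `priv l`: it can only be attacked through `l`, and `q` is the only element of `X M` on `l`. Hence `q` belongs to every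
`Y ⊆ X M` with `Dom n Y`. (`att q p` for the private square `p` of `l`: through `l`.)
(3) `X M` is dominating: `cover` and (1).
(4) Step: let `Y ⊆ X M`, `Dom n Y`, `u ∈ M`, `u ∉ Phi0`. Then `Y' = insert (b (0, u.1)) (insert (b (1, u.2)) (Y.erase u)) ⊆ X (M.erase u)` is dominating: let `v ∈ board n`.
If `v` lies on an own line `l`: if `l` is the column or the row of `u` use the new queens; otherwise the element `q ≠ u` of `X M` on `l` is in `Y` by (2). If `v` is on no own line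
take `q ∈ Y` attacking `v`; if `q ≠ u` done; if `q = u` it attacks through its diagonal or its antidiagonal, and `H` gives an own line (impossible), or `l ∈ own` not used by
`Phi` with `att (b l) v`, `b l ∈ X M`, so `b l ∈ Y` by (2) and `b l ≠ u`, or `u0 ∈ Phi0 ⊆ M`, `u0 ∈ Y`, `u0 ≠ u`.
(5) Every dominating set contains a minimal dominating subset (remove redundant elements; finite sets). Claim, by induction on `(M \ Phi0).card` going down from `Phi`: there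
is a function as follows; simplest formulation: for every `k` with `own.card + Z.card ≤ k + Phi.card` and every `M` with `Phi0 ⊆ M ⊆ Phi`: either there is `S` with `MinDom n S`, `S.card = k`, or
there is `Y ⊆ X M` with `MinDom n Y` and `Y.card < k`. Induction (`Finset.induction` removing elements): for `M = Phi` take a minimal dominating `Y ⊆ X Phi`, `Y.card ≤ k`. If it is `k` done.
Step `M` to `M.erase u`: from `Y ⊆ X M`, `Y.card < k` take a minimal dominating subset of `Y'`, of size `≤ Y.card + 1 ≤ k`. For `M = Phi0` the second alternative is impossible if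
`k + Phi0.card ≤ own.card`, because `Y` contains all of `X Phi0` outside `Z`, so `own.card - Phi0.card ≤ Y.card`. (A minimal dominating subset in the sense of inclusion satisfies `MinDom`:
if `q ∈ S` and `S.erase q` is not dominating there is `v ∈ board n` not attacked by `S.erase q`, but by `q`.) -/
def S_core : Prop := ∀ (n : ℤ) (own : Finset Line) (E : Fin 4 → ℤ → Prop) (b : Line → Sq)
  (Z Phi Phi0 : Finset Sq), Cfg n own E b Z Phi Phi0 → ∀ k : ℕ,
  own.card + Z.card ≤ k + Phi.card → k + Phi0.card ≤ own.card →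
  ∃ S : Finset Sq, MinDom n S ∧ S.card = k

/-- [TOP crt] Chinese remainders, uniqueness, and division by two.

Proof. `(e+1) P2 - e P1 = 1`, `(e+2) P1 - (e+1) P3 = 1`, `(P2 + e(e+1)) P2 - e(e+1) P3 = 1` (because `P3 - P2 = 4`, `P2 ^ 2 = 4 e (e+1) + 1`): pairwise `IsCoprime`. Existence: combine
two congruences with the Bezout coefficients, then the third modulo `P1 P2` and `P3` (`IsCoprime.mul_left`); then move `x` into the window: `L + (x - L) % K`. Uniqueness: `K ∣ x - x'`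
(`IsCoprime.mul_dvd`) and `|x - x'| < K` (`Int.eq_zero_of_abs_lt_dvd` or similar). Last part: `IsCoprime P 2` since `P` is odd. -/
def S_crt : Prop := ∀ e : ℤ, 1 ≤ e →
  (∀ a1 a2 a3 L : ℤ, ∃ x, L ≤ x ∧ x < L + KK e ∧ p1 e ∣ x - a1 ∧ p2 e ∣ x - a2 ∧ p3 e ∣ x - a3) ∧
  (∀ x x' : ℤ, |x - x'| < KK e → p1 e ∣ x - x' → p2 e ∣ x - x' → p3 e ∣ x - x' → x = x') ∧
  (∀ v : ℤ, (p1 e ∣ 2 * v → p1 e ∣ v) ∧ (p2 e ∣ 2 * v → p2 e ∣ v) ∧ (p3 e ∣ 2 * v → p3 e ∣ v))

/-- the lines which have a queen -/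
def Rng (e n : ℤ) (l : Line) : Prop :=
  match l.1 with
  | 0 => 1 ≤ l.2 ∧ l.2 ≤ n
  | 1 => 1 ≤ l.2 ∧ l.2 ≤ n
  | 2 => -(n - KK e) ≤ l.2 ∧ l.2 ≤ n - KK e
  | 3 => KK e + 1 ≤ l.2 ∧ l.2 ≤ 2 * n - KK e + 1

/-- [TOP pos] the positions exist. (Uses `S_crt`.)

Proof. By `unfold bb; rw [dif_pos]` with `Exists.choose_spec` it is enough to find `q` with `Pos e n l q`. Row `v`: `q = (x, v)` with `x ∈ [1, K]`, `P3 ∣ x`, `P1 ∣ x - v`, `P2 ∣ x + v = x - (-v)`.
Column `v`: `q = (v, y)`, `y ∈ [n - K + 1, n]`, `P3 ∣ y`, `P1 ∣ v - y`, `P2 ∣ v + y`. Diagonal `v`: `q = (x, x - v)`, `x` in the window of length `K` beginning with `max 1 (1 + v)`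
(then `1 ≤ x - v`, `x ≤ n`, `x - v ≤ n` since `|v| ≤ n - K`), `P2 ∣ x`, `P3 ∣ x - v`, `P1 ∣ 2 x - v`: with the residue `(e+2) v` modulo `P1` (`2 (e+2) v - v = P1 v`).
Antidiagonal `v`: `q = (x, v - x)`, `x` in the window beginning with `max 1 (v - n)`, `P2 ∣ x`, `P3 ∣ v - x`, `P1 ∣ 2 x - v` in the same way. -/
def S_pos : Prop := ∀ e n : ℤ, 1 ≤ e → 2 * KK e ≤ n → ∀ l : Line, Rng e n l →
  Pos e n l (bb e n l)

/-- [TOP oth] the other lines through a position are neither own nor empty.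

Proof. Case by case (`fin_cases` on the types): `P3 ∣ x` or `P2 ∣ x` excludes `FF e 0 x` and `OO e x`; `P3 ∣ y` excludes `FF e 1 y`, `OO`; `P1 ∣ x - y` excludes `FF e 2 (x - y)`, `OO`;
`P1 ∣ x + y` or `P2 ∣ x + y` excludes `FF e 3 (x + y)`, `OO`. -/
def S_oth : Prop := ∀ (e n : ℤ) (l : Line) (q : Sq), Pos e n l q → ∀ X, X ≠ l.1 →
  ¬ OO e (lv X q) ∧ ¬ FF e X (lv X q)

/-- [TOP free] no square lies on four empty lines. (Uses `S_crt` (for the division by two).)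

Proof. If `P1 ∣ y`: `P1 ∣ x + y`, excluded by `FF e 3`. Otherwise `P2 ∣ y`, `P2 ∤ x`; if `P2 ∣ x - y` then `P2 ∣ x`; otherwise `P3 ∣ x - y` and `P3 ∣ x + y`, so `P3 ∣ 2 x`, `P3 ∣ x`, contradiction. -/
def S_free : Prop := ∀ e x y : ℤ, 1 ≤ e → FF e 0 x → FF e 1 y → FF e 2 (x - y) → ¬ FF e 3 (x + y)

/-- [TOP fpt] the private squares. (Uses `S_crt`.)

Proof. `lo = K`, `hi = K + t - 1`. An own line has `OO e v`. Row `v`: `(x, v)`, `x ∈ [K, 2K - 1] ⊆ [lo, hi]`, `P1 ∣ x`, `P2 ∣ x - v`, `P3 ∣ x + v`. Column `v`: `(v, y)`, `P1 ∣ y`, `P2 ∣ v - y`, `P3 ∣ v + y`.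
Diagonal `v`, `|v| ≤ t - K`: `(x, x - v)`, `x` in the window of length `K` beginning with `max lo (lo + v)`, `P1 ∣ x`, `P2 ∣ x - v`, `P3 ∣ 2 x - v` (residue `(e + 3) v` modulo `P3`).
Antidiagonal `v`, `|v - (lo + hi)| ≤ t - K`: `(x, v - x)`, `x` in the window beginning with `max lo (v - hi)`, `P1 ∣ x`, `P2 ∣ v - x`, `P3 ∣ 2 x - v`. Then check `FF` of the three other lines:
e.g. row `v`: `FF e 0 x`: `P1 ∣ x`, `P2 ∤ x` (else `P2 ∣ v`), `P3 ∤ x`; `FF e 2 (x - v)`: `P2 ∣ x - v`, `P1 ∤ x - v`, `P3 ∤ x - v` (else with `P3 ∣ x + v`, `P3 ∣ 2 v`, `P3 ∣ v`); `FF e 3 (x + v)`: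
`P3 ∣ x + v`, `P1 ∤ x + v`, `P2 ∤ x + v` (else `P2 ∣ 2 v`). Diagonal `v`, `y = x - v`: `FF e 0 x`: `P2 ∤ x` (else `P2 ∣ v`), `P3 ∤ x` (else `P3 ∣ v`); `FF e 1 y`: `P2 ∣ y`, `P1 ∤ y`, `P3 ∤ y`
(`P3 ∣ x + y` and `P3 ∣ y` give `P3 ∣ x`); `FF e 3 (x + y)`: `P1 ∤ x + y` (else `P1 ∣ y`), `P2 ∤ x + y` (else `P2 ∣ x`). Antidiagonal: `FF e 0 x`: `P2 ∤ x` (else `P2 ∣ v`), `P3 ∤ x` (`P3 ∣ 2 x - v`);
`FF e 1 y`: `P2 ∣ y`, `P1 ∤ y`, `P3 ∤ y`; `FF e 2 (x - y)`: `P3 ∣ x - y = 2 x - v`, `P1 ∤`, `P2 ∤`. The window conditions of `EE` hold for the column and the row. -/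
def S_fpt : Prop := ∀ e n t : ℤ, 1 ≤ e → KK e ≤ t → t ≤ n - 2 * KK e + 1 →
  ∀ l ∈ ownB e n t, ∃ p ∈ board n, lv l.1 p = l.2 ∧ ∀ X, X ≠ l.1 → EE e t X (lv X p)

/-- [TOP mown] membership in `ownB`. -/
def S_mown : Prop := ∀ (e n t : ℤ) (X : Fin 4) (v : ℤ), ((X, v) : Line) ∈ ownB e n t ↔ OO e v ∧
  match X with
  | 0 => 1 ≤ v ∧ v ≤ n
  | 1 => 1 ≤ v ∧ v ≤ n
  | 2 => -(t - KK e) ≤ v ∧ v ≤ t - KK e
  | 3 => 2 * KK e + t - 1 - (t - KK e) ≤ v ∧ v ≤ 2 * KK e + t - 1 + (t - KK e)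

/-- [TOP mneed] membership in `needB`. -/
def S_mneed : Prop := ∀ (e n t : ℤ) (X : Fin 4) (v : ℤ), ((X, v) : Line) ∈ needB e n t ↔
  ((X, v) : Line) ∉ ownB e n t ∧ ¬ EE e t X v ∧
  match X with
  | 0 => 1 ≤ v ∧ v ≤ n
  | 1 => 1 ≤ v ∧ v ≤ n
  | 2 => -(t - 1) ≤ v ∧ v ≤ t - 1
  | 3 => 2 * KK e ≤ v ∧ v ≤ 2 * KK e + 2 * (t - 1)

/-- [TOP cov] domination. (Uses `S_pos`, `S_free`, `S_mneed`.)

Proof. Let `v = (x, y)`. If the row `(1, y)` is own or needed we are done (a needed line `l` is in the range `Rng` of `S_pos`, its queen `bb e n l ∈ ZB` is on `l`, so it attacks `v`; `Rng` for the diagonals: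
`|d| ≤ t - 1 ≤ n - K`, for the antidiagonals: `K + 1 ≤ 2 K ≤ s ≤ 2 K + 2 (t - 1) ≤ 2 n - 2 K`). Otherwise `EE e t 1 y`, so `FF e 1 y` and `K ≤ y ≤ K + t - 1`. In the same way `FF e 0 x`, `K ≤ x ≤ K + t - 1`.
Then `|x - y| ≤ t - 1`, `2 K ≤ x + y ≤ 2 K + 2 (t - 1)`. If `FF e 2 (x - y)` and `FF e 3 (x + y)` both hold this contradicts `S_free`. Say `¬ FF e 2 (x - y)`: the diagonal is own or needed. -/
def S_cov : Prop := ∀ e n t : ℤ, 1 ≤ e → KK e ≤ t → t ≤ n - 2 * KK e + 1 →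
  ∀ v ∈ board n, (∃ X, ((X, lv X v) : Line) ∈ ownB e n t) ∨ ∃ z ∈ ZB e n t, att z v

/-- [TOP mphi] membership in `PhiB`. -/
def S_mphi : Prop := ∀ (e n : ℤ) (u : Sq), u ∈ PhiB e n ↔ ∃ j : ℤ, 1 ≤ j ∧ j ≤ 60 ∧
  KK e ≤ u.2 ∧ u.2 ≤ n - 2 * KK e ∧ p2 e ∣ u.2 + 8 * j ∧ ¬ p1 e ∣ u.2 ∧ ¬ p3 e ∣ u.2 ∧
  u.1 = u.2 + 2 * (p1 e * p3 e) * j

/-- [TOP phi] the merged queens. (Uses `S_mphi`, `S_mown`, `S_crt`.)

Proof. `P1 P3 = P2 ^ 2 + 6 P2 + 8`, so with `r = u.2`, `c = u.1`: `c = r + 16 j` modulo `P2`, so `P2 ∣ c - 8 j`; `c = r` modulo `P1` and `P3`. `P2 > 480 ≥ 8 j > 0`, so `P2 ∤ 8 j`, `P2 ∤ r`, `P2 ∤ c`.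
`2 P1 P3 j ≤ 120 P1 P3 ≤ K` since `P2 ≥ 120`. So `OO e r`, `OO e c`, `1 ≤ r, c ≤ n`: own. Diagonal `2 P1 P3 j`: divisible by `P1`. Antidiagonal `r + c`: divisible by `P2`
(`r + c = (r + 8 j) + (c - 8 j)`). Both are not `OO` and not `FF` of their type. Injectivity: `u ≠ u'`. If `r = r'` then `P2 ∣ 8 (j - j')`, `|8 (j - j')| < P2`, so `j = j'`, `c = c'`, contradiction.
If `c = c'` then `P2 ∣ 8 (j - j')` again, `j = j'`, `r = r'`. -/
def S_phi : Prop := ∀ e n t : ℤ, 500 ≤ e → KK e ≤ t → t ≤ n - 2 * KK e + 1 →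
  (∀ u ∈ PhiB e n, u ∈ board n ∧ ((0, u.1) : Line) ∈ ownB e n t ∧ ((1, u.2) : Line) ∈ ownB e n t ∧
    ∀ X, X ≠ 0 → X ≠ 1 → ((X, lv X u) : Line) ∉ ownB e n t ∧ ¬ EE e t X (lv X u)) ∧
  ∀ u ∈ PhiB e n, ∀ u' ∈ PhiB e n, u ≠ u' → u.1 ≠ u'.1 ∧ u.2 ≠ u'.2

/-- [TOP H] the diagonals of the merged queens. (Uses `S_crt`, `S_pos`, `S_mown`, `S_mphi`.)

Proof. Let `u = (c, r) ∈ PhiB`, `u ∉ Phi0B`, so `r ≥ 2 K`, with `j` from `S_mphi`. Diagonal: by `S_crt` there is `r0 ∈ [K, 2 K - 1]`, `P2 ∣ r0 + 8 j`, `P1 ∣ r0 - 1`, `P3 ∣ r0 - 1`; `u0 = (r0 + 2 P1 P3 j, r0) ∈ Phi0B` (note `r0 ≤ r ≤ n - 2 K`)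
is on the same diagonal, so it attacks every `v` on this diagonal. Antidiagonal `s = r + c`: `P2 ∣ s`, `s - 2 r = 2 P1 P3 j`, `s ≥ 4 K`, `s ≤ 2 n - 3 K` (`2 P1 P3 j ≤ K`).
If `s ≤ n + 1`: by `S_crt` take `x ∈ [1, K]`, `P3 ∣ x`, `P1 ∣ x - r`, `P2 ∣ x + 8`. `r' = s - x`: `P2 ∣ r' - 8`, `P1 ∣ r' - r`, `P3 ∣ r' - 2 r`: `OO e r'` (`P3 ∤ 2 r`), `1 ≤ r' ≤ n`, so `(1, r')` is own. It is not the
row of a member `u'` of `PhiB`: `P2 ∣ u'.2 + 8 j'` would give `P2 ∣ 8 (j' + 1)`, `0 < 8 (j' + 1) ≤ 488 < P2`. (And it is not a column.) `bb e n (1, r') = (x', r')` with `x' ∈ [1, K]`, `P3 ∣ x'`, `P1 ∣ x' - r'`, `P2 ∣ x' + r'`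
(`S_pos`); `x` satisfies the same conditions (`x - r' = (x - r) - (r' - r)`, `x + r' = s`), so `x' = x` by the uniqueness of `S_crt`; so `bb e n (1, r')` is on the antidiagonal `s`, hence attacks every `v` with `lv 3 v = s`.
If `s > n + 1`: take `y ∈ [n - K + 1, n]`, `P3 ∣ y`, `P1 ∣ y - r`, `P2 ∣ y - 8`, `c' = s - y`: `P2 ∣ c' + 8`, `P1 ∣ c' - r`, `P3 ∣ c' - 2 r`, `1 ≤ c' ≤ n`: `(0, c')` is own, not the column of a member of `PhiB` (`P2 ∣ u'.1 - 8 j'`), and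
`bb e n (0, c') = (c', y)` by the uniqueness. -/
def S_H : Prop := ∀ e n t : ℤ, 500 ≤ e → KK e ≤ t → t ≤ n - 2 * KK e + 1 →
  ∀ u ∈ PhiB e n, u ∉ Phi0B e n → ∀ v ∈ board n, (lv 2 v = lv 2 u ∨ lv 3 v = lv 3 u) →
    (∃ X, ((X, lv X v) : Line) ∈ ownB e n t) ∨
    (∃ l ∈ ownB e n t, (∀ u' ∈ PhiB e n, l ≠ (0, u'.1) ∧ l ≠ (1, u'.2)) ∧ att (bb e n l) v) ∨
    ∃ u0 ∈ Phi0B e n, att u0 v

/-- [TOP cfg] the configuration. (Uses `S_pos`, `S_oth`, `S_fpt`, `S_mown`, `S_mneed`, `S_cov`, `S_phi`, `S_H`.)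

Proof. Assembly: own lines have `OO e v`, which excludes `FF e X v`; the queen of an own line: `S_pos` (own lines are in `Rng`), `S_oth` (the lines with `¬ OO` are not own, the lines with `¬ FF` do not satisfy `EE`);
`z = bb e n l`, `l` needed: for `X = l.1` the line is `l` itself, for `X ≠ l.1` use `S_oth`. -/
def S_cfg : Prop := ∀ e n t : ℤ, 500 ≤ e → KK e ≤ t → t ≤ n - 2 * KK e + 1 →
  Cfg n (ownB e n t) (EE e t) (bb e n) (ZB e n t) (PhiB e n) (Phi0B e n)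

/-- [TOP cnt] counting multiples in an interval.

Proof. `Int.Ioc_filter_dvd_card_eq_floor_sub_floor`, `Int.Ico_filter_modEq_card` or similar lemmas, or an injection. Three parts: for `a ≤ b + 1`, `p ≥ 1`: (1) at most `(b - a + 1) / p + 1` (real division) of the numbers
in `[a, b]` are divisible by `p`; (2) at most three times this number are not `OO e` (`P1, P3 ≥ P2`); (3) at least `(b - a + 1 - (p - 1)) / p` of them satisfy `p ∣ r + c`. -/
def S_cnt : Prop :=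
  (∀ p a b c : ℤ, 1 ≤ p → a ≤ b + 1 →
    (((Finset.Icc a b).filter (fun v => p ∣ v + c)).card : ℤ) * p ≤ (b - a + 1) + p ∧
    (b - a + 1) ≤ (((Finset.Icc a b).filter (fun v => p ∣ v + c)).card : ℤ) * p + (p - 1)) ∧
  ∀ e a b : ℤ, 1 ≤ e → a ≤ b + 1 → ∀ s : Finset ℤ, s ⊆ Finset.Icc a b → (∀ v ∈ s, ¬ OO e v) →
    (s.card : ℤ) * p2 e ≤ 3 * ((b - a + 1) + p2 e)

/-- [TOP cz] the number of additional queens. (Uses `S_cnt`, `S_mown`, `S_mneed`.)

Proof. `ZB` is an image of `needB`, which is the union of its four types; by `S_mneed`, `S_mown` (a line not own and not `EE` in the range): columns and rows: `¬ OO e v` (`v ∈ [1, n]`): each at most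
`3 (n / P2 + 1)`; diagonals: `|v| ≤ t - 1` and either `¬ OO e v` (at most `3 ((2 t - 1) / P2 + 1)`, `2 t - 1 ≤ 2 n`) or `|v| > t - K` (at most `2 K`); antidiagonals: the same. Sum: `18 n / P2 + 12 + 4 K`. -/
def S_cz : Prop := ∀ e n t : ℤ, 500 ≤ e → KK e ≤ t → t ≤ n - 2 * KK e + 1 →
  ((ZB e n t).card : ℤ) * p2 e ≤ 18 * n + 12 * p2 e + 4 * KK e * p2 e

/-- [TOP cphi] the number of merged queens. (Uses `S_cnt`, `S_mphi`, `S_phi`.)

Proof. `PhiB` is the union of the images of the sets `rowsB e n j`, `1 ≤ j ≤ 60`, which are disjoint (different rows, `S_phi`; or directly: if `P2 ∣ r + 8 j` and `P2 ∣ r + 8 j'` then `j = j'`), the maps `r ↦ (.., r)` are injective. So it is enough that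
`n - 3 K ≤ (3 (rowsB e n j).card + 6) P2`. Let `R` be the set of the `r ∈ [K, n - 2 K]` with `P2 ∣ r + 8 j`, `n - 3 K + 1 ≤ R.card * P2 + P2 - 1` (`S_cnt`). `R` consists of `r_1, r_1 + P2, r_1 + 2 P2, ..`; among three consecutive members
at most one is divisible by `P1` (`P1 ∤ P2`, `P1 ∤ 2 P2` as `P2 = P1 - 2`, `2 P2 = 2 P1 - 4`) and at most one by `P3` (`P2 = P3 - 4`, `2 P2 = 2 P3 - 8`), so at least one is in `rowsB`; hence `R.card ≤ 3 (rowsB).card + 2`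
(for instance: map `r ∈ R`, `r ≤ n - 2 K - 2 P2`, to one of `r, r + P2, r + 2 P2` in `rowsB`; every element is hit at most three times). If `n < 3 K` the claim is trivial. -/
def S_cphi : Prop := ∀ e n : ℤ, 500 ≤ e → 4 * KK e ≤ n →
  20 * (n - 3 * KK e) ≤ (((PhiB e n).card : ℤ) + 120) * p2 e

/-- [TOP cphi0] the number of the queens which stay merged. (Uses `S_phi`, `S_mphi`.)

Proof. `u ↦ u.2` is injective on `PhiB` (`S_phi`, with `t = KK e`) and maps `Phi0B` into `[K, 2 K - 1]`. -/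
def S_cphi0 : Prop := ∀ e n : ℤ, 500 ≤ e → 4 * KK e ≤ n → ((Phi0B e n).card : ℤ) ≤ KK e

/-- [TOP cown] the number of own lines. (Uses `S_cnt`, `S_mown`.)

Proof. (1) `ownB e n (t + 1)` is contained in `ownB e n t` together with at most two diagonals and two antidiagonals (new values `± (t + 1 - K)`; the interval `[3 K - 1, 2 t + K - 1]` of antidiagonals
grows to `[3 K - 1, 2 t + K + 1]`). (2) For `t = K`: at most `n` columns, `n` rows, one diagonal, one antidiagonal. (3) For `t = n - 2 K + 1`: columns and rows: `n` minus at most `3 (n / P2 + 1)` each; diagonals: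
`2 (n - 3 K + 1) + 1` values minus at most `3 (2 n / P2 + 1)`; antidiagonals: the same number. (`S_cnt`, second part, for the complement.) -/
def S_cown : Prop := ∀ e n : ℤ, 500 ≤ e → 4 * KK e ≤ n →
  (∀ t : ℤ, KK e ≤ t → (ownB e n (t + 1)).card ≤ (ownB e n t).card + 4) ∧
  ((ownB e n (KK e)).card : ℤ) ≤ 2 * n + 2 ∧
  6 * n * p2 e ≤ ((ownB e n (n - 2 * KK e + 1)).card : ℤ) * p2 e + 18 * n + (12 * KK e + 6) * p2 e

/-- [TOP main] the sizes `2 n - 12 .. 6 n - ..`. (Uses `S_core`, `S_cfg`, `S_cz`, `S_cphi`, `S_cphi0`, `S_cown`.)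

Proof. Put `o t = (ownB e n t).card`, `z t = (ZB e n t).card`, `f = (PhiB e n).card`, `f0 = (Phi0B e n).card`. By `S_core`, `S_cfg` every `k` with `o t + z t ≤ k + f`, `k + f0 ≤ o t`, `K ≤ t ≤ n - 2 K + 1`, is a size. With
`n ≥ 100 P2 ^ 4`, `K ≤ P2 ^ 3 * 1.02`: `z t + K + 20 ≤ f` (multiply by `P2`: `18 n + 12 P2 + 4 K P2 + K P2 + 20 P2 ≤ 20 (n - 3 K) - 120 P2`, i.e. `60 K + 5 K P2 + 152 P2 ≤ 2 n`). Let `k` be as in the statement. By `S_cown` (3)
`k + f0 ≤ o (n - 2 K + 1)`. Take the smallest integer `t ≥ K` with `k + f0 ≤ o t` (`t ≤ n - 2 K + 1`). If `t = K`: `o K + z K ≤ 2 n + 2 + f - 20 ≤ k + f`. Otherwise `k + f0 > o (t - 1) ≥ o t - 4`, so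
`o t + z t ≤ k + f0 + 3 + f - K - 20 ≤ k + f`. -/
def S_main : Prop := ∀ e n : ℤ, 500 ≤ e → 100 * p2 e ^ 4 ≤ n → ∀ k : ℕ, 2 * n - 12 ≤ k →
  ((k : ℤ) + 13 * KK e + 6) * p2 e + 18 * n ≤ 6 * n * p2 e →
  ∃ S : Finset Sq, MinDom n S ∧ S.card = k

/-- [TOP stA] the sizes `n - 1 .. 2 n - 11`. (Uses `S_core`.)

Proof. Apply `S_core` with: `own` = the columns and the rows `v ∈ [6, n]`; `E X v`: `X = 0` and `v = 4 ∨ v = 5`; `X = 1` and `v = 3 ∨ v = 4`; `X = 2` and `v` odd, `v ≠ 1`; `X = 3` and `v` odd, `v ≠ 3`. `b (1, r) = (1 or 2, r)`, `b (0, c) = (c, 1 or 2)`, with the parity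
of `r`, `c` (`if r % 2 = 0 then 2 else 1`). Private squares: row `r`: `(5, r)` for `r` even, `(4, r)` for `r` odd; column `c`: `(c, 3)` for `c` even, `(c, 4)` for `c` odd. `Z = {(1,1), (2,2), (3,5), (2,1)}`, `Phi = {(r, r) : r ∈ [6, n]}`, `Phi0 = {(n, n)}`.
Cover: a square with a coordinate `≥ 6` is on an own line; the other squares have `x, y ∈ [1, 5]`: columns 1, 2, 3 and rows 1, 2, 5 contain a member of `Z`; `(4, 3)`, `(5, 4)`: diagonal of `(2, 1)`; `(4, 4)`: diagonal of `(1, 1)`; `(5, 3)`: antidiagonal of `(3, 5)`.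
`H`: the diagonal `0` contains `(n, n)`; a square of the antidiagonal `2 r ≥ 12` has a coordinate `≥ 6`. Cards: `own = 2 (n - 5)`, `Phi = n - 5`, `Z = 4`, `Phi0 = 1`. -/
def S_stA : Prop := ∀ (n k : ℕ), 10 ≤ n → n - 1 ≤ k → k + 11 ≤ 2 * n →
  ∃ S : Finset Sq, MinDom n S ∧ S.card = k

/-- [TOP tr] from integer coordinates to `Fin n × Fin n`.

Proof. The map `board n → Fin n × Fin n`, `(x, y) ↦ (x - 1, y - 1)`, is a bijection; `att q v` iff `v` is in the closed neighbourhood (`|a| = |b|` iff `a = b` or `a = - b`: the diagonals; see the lemma `of_coords` in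
`Results/MP_b8d9b4_co/MaxIndepRange.lean`). Minimality: a subset `T` of `S'` which is dominating and does not contain `q` cannot dominate the private square of `q`. -/
def S_tr : Prop := ∀ (n : ℕ) (S : Finset Sq), MinDom n S →
  ∃ S' : Finset (Fin n × Fin n), IsMinDominating (queensGraph n) S' ∧ S'.card = S.card

/-- [TOP gr] facts on all graphs.

Proof. (1) A minimal dominating set `S` is irredundant: if `v ∈ S` has no private neighbour then `S.erase v` is dominating. It is maximal irredundant: let `S ⊆ T`, `T` irredundant, `u ∈ T`, `u ∉ S`: a private neighbour `w` of `u` (with respect to `T`) is dominated by some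
`v ∈ S ⊆ T`, `v ≠ u`: contradiction. (2) A maximal independent set is dominating (otherwise insert an undominated vertex), and minimal: if `T ⊆ S` is dominating and `v ∈ S`, `v ∉ T`, then `v` is adjacent to a member of `T ⊆ S`. -/
def S_gr : Prop := ∀ (V : Type) (_ : Fintype V) (_ : DecidableEq V) (G : SimpleGraph V) (S : Finset V),
  (IsMinDominating G S → IsMaxIrredundant G S) ∧
  (Maximal (fun T : Finset V => G.IsIndepSet (T : Set V)) S → IsMinDominating G S)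

/-- [TOP up] the upper bound.

Proof. Let `S` be irredundant. For `v ∈ S` with private neighbour `w` choose a line through `v`: the row of `v` if `w = v`, and a common line of `v` and `w` if `w ≠ v`. This line contains no other `u ∈ S` (if `w = v` such a `u` would be adjacent to `w`; if `w ≠ v` it
would be equal or adjacent to `w`). So the map from `S` to the lines (`Fin n` rows, `Fin n` columns, diagonals `x - y ∈ [-(n-1), n-1]`, antidiagonals `x + y ∈ [0, 2 n - 2]`) is injective: `S.card ≤ 2 n + 2 (2 n - 1) = 6 n - 2`. -/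
def S_up : Prop := ∀ (n : ℕ) (S : Finset (Fin n × Fin n)), IsIrredundant (queensGraph n) S →
  S.card ≤ 6 * n - 2

/-- [TOP fin] the choice of `e`. (Uses `S_main`.)

Proof. `C = 10 ^ 5` for instance. Let `N0 = 100 * 1001 ^ 4 ≈ 1.004 * 10 ^ 14`. If `n < N0` then `C n ^ (3/4) > 6 n` (`n ^ (1/4) < 3200`, `6 * 3200 < 10 ^ 5`) for `n ≥ 1` and there is no `k` (`n = 0`: `k + 0 ≤ 0`, `12 ≤ 2 n + ..`: excluded by `10 ≤ n`). If `n ≥ N0` let `m` be the largest odd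
number with `100 m ^ 4 ≤ n`; `m ≥ 1001`, `100 (m + 2) ^ 4 > n`, `e = (m - 1) / 2`, so `m ≤ (n / 100) ^ (1/4) < m + 2 ≤ 1.002 m`. Then `13 K + 6 + 18 n / m ≤ C n ^ (3/4)`: `K = m (m + 2) (m + 4) ≤ 1.01 m ^ 3 ≤ n ^ (3/4)`, and `n / m ≤ 1.002 n / (n / 100) ^ (1/4) ≤ 4 n ^ (3/4)`. -/
def S_fin : Prop := ∃ C : ℝ, 0 < C ∧ ∀ n k : ℕ, 10 ≤ n → 2 * n ≤ k + 12 →
  (k : ℝ) + C * (n : ℝ) ^ (3 / 4 : ℝ) ≤ 6 * n → ∃ S : Finset Sq, MinDom n S ∧ S.card = k

end Pool.Agent.MP_b8d9b4_co.Top
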